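import Pool.Agent.CI.T.Top
import Pool.Agent.CI.C.AllF

/-!
# MP_d090fc_lc, Q1: a model of ZFC in which the left side of the diagram of Cichon with the
invariants of the closed null ideal is separated

The chain: first uncountable cardinal, add(N), b, cov(N), non(E), non(M), cov(M), and
cov(E) = non(N) = d = c, strictly increasing.
-/

set_option autoImplicit false

namespace Pool.Agent.Results.MP_d090fc_lc.LeftChain

/-- there is a model of ZFC in which the chain of Q1 holds -/
theorem result : ∃ (M : Type 1) (E : M → M → Prop), CI.ZFC E ∧ CI.Chain E :=
  CI.final_of CI.topStatement CI.coreStatement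

end Pool.Agent.Results.MP_d090fc_lc.LeftChain
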